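import Pool.Agent.Lib.MP_20855c_co.Match.Fr
import Pool.Agent.Lib.MP_20855c_co.Match.Weights

/-!
Two families with intersections of size two: the case in which the union of all the intersections has
`a + b - 1` points and every intersection lies on a cycle of intersections.
-/

set_option autoImplicit false

namespace Pool.Agent.Results.MP_20855c_co.CycleCores

open Finset Pool.Agent.Lib.MP_20855c_co Pool.Agent.Lib.MP_20855c_co.Match
  Pool.Agent.Lib.MP_20855c_co.Star

/-- An `(a,b)`-system: `|A i| = a`, `|B i| = b`, `|A i ∩ B i| = 2`, and `A i ∩ B j` is not contained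
in any `A k ∩ B k` when `i ≠ j`. -/
structure IsSystem {ι α : Type*} [DecidableEq α] (a b : ℕ) (A B : ι → Finset α) : Prop where
  card_left : ∀ i, (A i).card = a
  card_right : ∀ i, (B i).card = b
  card_inter : ∀ i, (A i ∩ B i).card = 2
  not_subset : ∀ i j k, i ≠ j → ¬ A i ∩ B j ⊆ A k ∩ B k

/-- `S(a,b) = ∑_{i=2}^{a} 2^(i-2) * C(a+b-2i, a-i)`. -/
def S (a b : ℕ) : ℕ := ∑ i ∈ Icc 2 a, 2 ^ (i - 2) * (a + b - 2 * i).choose (a - i)

/-- The union of all the intersections `A k ∩ B k`. -/
def core {ι α : Type*} [Fintype ι] [DecidableEq α] (A B : ι → Finset α) : Finset α :=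
  univ.biUnion fun k => A k ∩ B k

/-- The set of all the intersections `A k ∩ B k`. -/
def cores {ι α : Type*} [Fintype ι] [DecidableEq α] (A B : ι → Finset α) : Finset (Finset α) :=
  univ.image fun k => A k ∩ B k

lemma S_eq (a b : ℕ) (ha : 2 ≤ a) :
    S a b = ∑ j ∈ range (a - 1), 2 ^ j * (a + b - 4 - 2 * j).choose (a - 2 - j) := by
  unfold S
  have h : Icc 2 a = (range (a - 1)).image (fun j => j + 2) := by
    ext i
    simp only [mem_Icc, mem_image, mem_range]
    constructor
    · rintro ⟨h1, h2⟩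
      exact ⟨i - 2, by omega, by omega⟩
    · rintro ⟨j, h1, rfl⟩
      omega
  rw [h, sum_image (by intro i _ j _ hij; simpa using hij)]
  apply sum_congr rfl
  intro j _
  rw [show j + 2 - 2 = j by omega, show a + b - 2 * (j + 2) = a + b - 4 - 2 * j by omega,
    show a - (j + 2) = a - 2 - j by omega]

/-- The functions on `V` with sum zero over the nonempty set `Λ` are a space of codimension one. -/
lemma finrank_hyp {V K : Type*} [Field K] [Fintype V] (Λ : Finset V) (hΛ : Λ.Nonempty) :
    ∃ X1 : Submodule K (V → K), Module.finrank K X1 + 1 = Fintype.card V ∧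
      ∀ f, f ∈ X1 ↔ ∑ v ∈ Λ, f v = 0 := by
  classical
  set φ : (V → K) →ₗ[K] K := ∑ v ∈ Λ, LinearMap.proj v with hφ
  have h1 : ∀ f, φ f = ∑ v ∈ Λ, f v := by
    intro f
    rw [hφ, LinearMap.sum_apply]
    rfl
  obtain ⟨m, hm⟩ := hΛ
  have hsurj : LinearMap.range φ = ⊤ := by
    rw [LinearMap.range_eq_top]
    intro c
    refine ⟨Pi.single m c, ?_⟩
    rw [h1, sum_eq_single m]
    · simp
    · intro v _ hv
      simp [hv]
    · intro h
      exact absurd hm h
  have h2 := LinearMap.finrank_range_add_finrank_ker φ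
  rw [hsurj, finrank_top, Module.finrank_self, Module.finrank_fintype_fun_eq_card] at h2
  refine ⟨LinearMap.ker φ, by omega, ?_⟩
  intro f
  rw [LinearMap.mem_ker, h1]

theorem main (k b : ℕ) (hab : k + 2 ≤ b) {ι α : Type*} [Fintype ι] [Nonempty ι] [DecidableEq α]
    (A B : ι → Finset α) (h : IsSystem (k + 2) b A B)
    (W : Finset α) (hW : W.card = k + b + 1) (hcW : ∀ i, A i ∩ B i ⊆ W)
    (Λ : Finset α) (hΛW : Λ ⊆ W) (hΛ : ∀ i, ∃ v ∈ Λ, v ∉ A i ∪ B i)
    (hcy : ∀ i, ∃ Z ⊆ cores A B, A i ∩ B i ∈ Z ∧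
      ∀ v : α, Even (Λ.filter fun u => u ≠ v ∧ ({u, v} : Finset α) ∈ Z).card) :
    Fintype.card ι ≤ ∑ j ∈ range (k + 1), 2 ^ j * (k + b - 2 - 2 * j).choose (k - j) := by
  classical
  have hZ : ∀ i, (A i ∪ B i).card = k + b := by
    intro i
    have h1 := card_union_add_card_inter (A i) (B i)
    rw [h.card_left, h.card_right, h.card_inter] at h1
    omega
  have hout : ∀ i, (A i \ W).card + (B i \ W).card = ((A i ∪ B i) \ W).card := by
    intro i
    rw [union_sdiff_distrib, card_union_of_disjoint]
    rw [Finset.disjoint_left]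
    intro u hu hu'
    rw [mem_sdiff] at hu hu'
    exact hu.2 (hcW i (mem_inter.2 ⟨hu.1, hu'.1⟩))
  choose m hmΛ hmZ using hΛ
  have hmW : ∀ i, m i ∈ W \ (A i ∪ B i) := fun i => mem_sdiff.2 ⟨hΛW (hmΛ i), hmZ i⟩
  set G : Finset (Finset α) := cores A B with hG
  have hG2 : ∀ e ∈ G, e.card = 2 := by
    intro e he
    obtain ⟨l, _, rfl⟩ := mem_image.1 he
    exact h.card_inter l
  have hGW : ∀ e ∈ G, e ⊆ W := by
    intro e he
    obtain ⟨l, _, rfl⟩ := mem_image.1 he
    exact hcW l
  have hGm : ∀ i, A i ∩ B i ∈ G := fun i => mem_image_of_mem _ (mem_univ i)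
  obtain ⟨i0⟩ := ‹Nonempty ι›
  have hm0 : (⟨m i0, hΛW (hmΛ i0)⟩ : W) ∈ Λ.subtype (· ∈ W) := mem_subtype.2 (hmΛ i0)
  obtain ⟨X1, hX1, hX1m⟩ := finrank_hyp (K := Fr) (Λ.subtype (· ∈ W)) ⟨_, hm0⟩
  have hX1' : Module.finrank Fr X1 = k + b := by
    rw [Fintype.card_coe, hW] at hX1
    omega
  obtain ⟨t, ht, h01⟩ := cycle_weights (K := Fr) (V := W)
    (G.image fun e => e.subtype (· ∈ W))
    (by
      intro e he
      obtain ⟨e', he', rfl⟩ := mem_image.1 he
      rw [card_subtype, filter_true_of_mem (fun u hu => hGW e' he' hu)]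
      exact hG2 e' he')
    (Λ.subtype (· ∈ W))
    (by
      intro e he
      obtain ⟨e', he', rfl⟩ := mem_image.1 he
      obtain ⟨i, _, rfl⟩ := mem_image.1 he'
      obtain ⟨Z, hZG, hiZ, hev⟩ := hcy i
      refine ⟨Z.image fun e => e.subtype (· ∈ W), image_subset_image hZG, ?_, ?_⟩
      · exact mem_image_of_mem _ hiZ
      · intro v
        have h1 := hev (v : α)
        convert h1 using 1
        apply card_bij (fun (u : W) _ => (u : α))
        · intro u hu
          rw [mem_filter, mem_subtype] at hu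
          obtain ⟨hu1, hu2, hu3⟩ := hu
          rw [mem_filter]
          refine ⟨hu1, fun h' => hu2 (Subtype.ext h'), ?_⟩
          obtain ⟨z, hz, hzuv⟩ := mem_image.1 hu3
          have hzW : z ⊆ W := hGW z (hZG hz)
          have h2 : z = {(u : α), (v : α)} := by
            ext w
            constructor
            · intro hw
              have h3 : (⟨w, hzW hw⟩ : W) ∈ z.subtype (· ∈ W) := mem_subtype.2 hw
              rw [hzuv, mem_insert, mem_singleton, Subtype.ext_iff, Subtype.ext_iff] at h3
              rw [mem_insert, mem_singleton]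
              exact h3
            · intro hw
              have h3 : ∀ w' : W, w' ∈ ({u, v} : Finset W) → (w' : α) ∈ z := by
                intro w' hw'
                rw [← hzuv, mem_subtype] at hw'
                exact hw'
              rw [mem_insert, mem_singleton] at hw
              rcases hw with rfl | rfl
              · exact h3 u (mem_insert_self _ _)
              · exact h3 v (mem_insert_of_mem (mem_singleton_self _))
          rw [← h2]
          exact hz
        · intro u _ u' _ huu
          exact Subtype.ext huu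
        · intro u hu
          rw [mem_filter] at hu
          obtain ⟨hu1, hu2, hu3⟩ := hu
          refine ⟨⟨u, hΛW hu1⟩, ?_, rfl⟩
          rw [mem_filter, mem_subtype]
          refine ⟨hu1, fun h' => hu2 (congrArg Subtype.val h'), ?_⟩
          refine mem_image.2 ⟨{u, (v : α)}, hu3, ?_⟩
          ext w
          rw [mem_subtype]
          simp only [mem_insert, mem_singleton, Subtype.ext_iff])
  have hTex : ∀ i, ∃ T ⊆ (W \ (A i ∪ B i)).erase (m i),
      T.card = (A i \ W).card + (B i \ W).card := by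
    intro i
    apply exists_subset_card_eq
    rw [hout, card_erase_of_mem (hmW i)]
    have e1 := card_sdiff_add_card_inter (A i ∪ B i) W
    have e2 := card_sdiff_add_card_inter W (A i ∪ B i)
    rw [inter_comm W] at e2
    rw [hZ] at e1
    omega
  choose T hT1 hT2 using hTex
  have hT3 : ∀ i, T i = (W \ (A i ∪ B i)).erase (m i) := by
    intro i
    apply eq_of_subset_of_card_le (hT1 i)
    rw [hT2, hout, card_erase_of_mem (hmW i)]
    have e1 := card_sdiff_add_card_inter (A i ∪ B i) W
    have e2 := card_sdiff_add_card_inter W (A i ∪ B i)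
    rw [inter_comm W] at e2
    rw [hZ] at e1
    omega
  refine abs_hybrid (F := Fr) k b hab A B h.card_left h.card_right
    h.card_inter G hG2 hGm ?_ W hGW T (fun i => (hT1 i).trans (erase_subset _ _)) hT2 t ?_ X1 hX1'
    (fun y => (hX1m _).2 (h01 y)) ?_
  · intro i j hij e he
    obtain ⟨s, _, rfl⟩ := mem_image.1 he
    exact h.not_subset i j s hij
  · intro e he
    exact ht _ (mem_image_of_mem _ he)
  · intro i f hf hf0
    rw [hX1m] at hf
    -- `f` is zero outside `m i`
    have h1 : ∀ v : W, (v : α) ≠ m i → f v = 0 := by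
      intro v hv
      apply hf0
      by_cases hv' : (v : α) ∈ A i ∪ B i
      · exact mem_union_left _ hv'
      · apply mem_union_right
        rw [hT3, mem_erase, mem_sdiff]
        exact ⟨hv, v.2, hv'⟩
    rw [sum_eq_single (⟨m i, hΛW (hmΛ i)⟩ : W)] at hf
    · funext v
      by_cases hv : (v : α) = m i
      · have h2 : v = ⟨m i, hΛW (hmΛ i)⟩ := Subtype.ext hv
        rw [h2, hf]
        rfl
      · exact h1 v hv
    · intro v _ hv
      exact h1 v (fun h' => hv (Subtype.ext h'))
    · intro h'
      exact absurd (mem_subtype.2 (hmΛ i)) h'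

theorem general (a b : ℕ) (ha : 2 ≤ a) (hab : a ≤ b) {ι α : Type*} [Fintype ι] [DecidableEq α]
    (A B : ι → Finset α) (h : IsSystem a b A B)
    (hX : (core A B).card = a + b - 1)
    (Λ : Finset α) (hΛX : Λ ⊆ core A B) (hΛ : ∀ i, ¬ Λ ⊆ A i ∪ B i)
    (hcy : ∀ i, ∃ Z ⊆ cores A B, A i ∩ B i ∈ Z ∧
      ∀ v : α, Even (Λ.filter fun u => u ≠ v ∧ ({u, v} : Finset α) ∈ Z).card) :
    Fintype.card ι ≤ S a b := by
  classical
  obtain ⟨k, rfl⟩ : ∃ k, a = k + 2 := ⟨a - 2, by omega⟩
  have hS : S (k + 2) b = ∑ j ∈ range (k + 1), 2 ^ j * (k + b - 2 - 2 * j).choose (k - j) := by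
    rw [S_eq _ _ ha, show k + 2 - 1 = k + 1 by omega, show k + 2 - 2 = k by omega,
      show k + 2 + b - 4 = k + b - 2 by omega]
  rw [hS]
  rcases isEmpty_or_nonempty ι with hI | hI
  · rw [Fintype.card_eq_zero]
    exact Nat.zero_le _
  refine main k b hab A B h (core A B) (by omega) ?_ Λ hΛX ?_ hcy
  · intro i
    unfold core
    exact subset_biUnion_of_mem (fun k => A k ∩ B k) (mem_univ i)
  · intro i
    have h1 := hΛ i
    rw [not_subset] at h1
    exact h1

theorem cycles (a b : ℕ) (ha : 2 ≤ a) (hab : a ≤ b) {ι α : Type*} [Fintype ι] [DecidableEq α]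
    (A B : ι → Finset α) (h : IsSystem a b A B)
    (hX : (core A B).card = a + b - 1)
    (hcy : ∀ i, ∃ Z ⊆ cores A B, A i ∩ B i ∈ Z ∧ ∀ v : α, Even (Z.filter fun e => v ∈ e).card) :
    Fintype.card ι ≤ S a b := by
  classical
  refine general a b ha hab A B h hX (core A B) (Subset.refl _) ?_ ?_
  · intro i hi
    have h1 := card_le_card hi
    have h2 := card_union_add_card_inter (A i) (B i)
    rw [h.card_left, h.card_right, h.card_inter] at h2
    omega
  · intro i
    obtain ⟨Z, hZ, hiZ, hev⟩ := hcy i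
    refine ⟨Z, hZ, hiZ, ?_⟩
    intro v
    convert hev v using 1
    have hsub : ∀ e ∈ Z, e ⊆ core A B ∧ e.card = 2 := by
      intro e he
      obtain ⟨l, _, rfl⟩ := mem_image.1 (hZ he)
      refine ⟨?_, h.card_inter l⟩
      unfold core
      exact subset_biUnion_of_mem (fun k => A k ∩ B k) (mem_univ l)
    apply card_bij (fun (u : α) _ => ({u, v} : Finset α))
    · intro u hu
      rw [mem_filter] at hu
      rw [mem_filter]
      exact ⟨hu.2.2, mem_insert_of_mem (mem_singleton_self _)⟩
    · intro u hu u' hu' huu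
      rw [mem_filter] at hu hu'
      have h1 : u ∈ ({u', v} : Finset α) := by
        rw [← huu]
        exact mem_insert_self _ _
      rw [mem_insert, mem_singleton] at h1
      rcases h1 with h1 | h1
      · exact h1
      · exact absurd h1 hu.2.1
    · intro e he
      rw [mem_filter] at he
      obtain ⟨heZ, hve⟩ := he
      obtain ⟨h1, h2⟩ := hsub e heZ
      obtain ⟨x, y, hxy, rfl⟩ := card_eq_two.1 h2
      rw [mem_insert, mem_singleton] at hve
      rcases hve with rfl | rfl
      · refine ⟨y, ?_, pair_comm _ _⟩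
        rw [mem_filter]
        refine ⟨h1 (mem_insert_of_mem (mem_singleton_self _)), Ne.symm hxy, ?_⟩
        rw [pair_comm]
        exact heZ
      · refine ⟨x, ?_, rfl⟩
        rw [mem_filter]
        exact ⟨h1 (mem_insert_self _ _), hxy, heZ⟩

/-- Let `2 ≤ a ≤ b` and let `(A i, B i)` be an `(a,b)`-system of finite sets of elements of any
type, indexed by a finite type `ι`, such that the union `X` of all the intersections `A k ∩ B k` has
exactly `a + b - 1` points (so that no set `A i ∪ B i`, which has `a + b - 2` points, contains `X`).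
* Let `Λ` be a subset of `X` which is contained in none of the sets `A i ∪ B i`. Assume that for every
`i` there is a set `Z` of intersections, with `A i ∩ B i ∈ Z`, such that for every `v` the number of
the points `u ≠ v` in `Λ` with `{u, v} ∈ Z` is even. Then `|ι| ≤ S(a,b)`.
* In particular (`Λ = X`) let every `A i ∩ B i` be in a set `Z` of intersections such that every point
is in an even number of the members of `Z` (a cycle, for example). Then `|ι| ≤ S(a,b)`. -/
theorem result (a b : ℕ) (ha : 2 ≤ a) (hab : a ≤ b) {ι α : Type*} [Fintype ι] [DecidableEq α]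
    (A B : ι → Finset α) (h : IsSystem a b A B)
    (hX : (core A B).card = a + b - 1) :
    (∀ Λ : Finset α, Λ ⊆ core A B → (∀ i, ¬ Λ ⊆ A i ∪ B i) →
      (∀ i, ∃ Z ⊆ cores A B, A i ∩ B i ∈ Z ∧
        ∀ v : α, Even (Λ.filter fun u => u ≠ v ∧ ({u, v} : Finset α) ∈ Z).card) →
      Fintype.card ι ≤ S a b) ∧
    ((∀ i, ∃ Z ⊆ cores A B, A i ∩ B i ∈ Z ∧ ∀ v : α, Even (Z.filter fun e => v ∈ e).card) →
      Fintype.card ι ≤ S a b) :=
  ⟨fun Λ hΛX hΛ hcy => general a b ha hab A B h hX Λ hΛX hΛ hcy,
    fun hcy => cycles a b ha hab A B h hX hcy⟩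

end Pool.Agent.Results.MP_20855c_co.CycleCores
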